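import Pool.Agent.helper76.LP.Defs
import Pool.Agent.helper58.QR.GA
import Pool.Agent.helper54.QR.GB
import Pool.Agent.helper31.QR.KL
import Pool.Agent.helper13.QR.ST
import Pool.Agent.helper13.QR.DC

/-! # Project QR, module XB: the exceptional range, `D` prime to 6, norm at most 12 -/

namespace Pool.Agent.helper76.LP

open Finset

/-- the support in a coset is at most the support -/
lemma XB_sl0 {G ι : Type*} [CommGroup G] [Fintype G] (Γ : ι → Subgroup G) (L : List ι)
    (g : G → ℤ) (a : G) : Sl Γ L g a ≤ (univ.filter (fun x => g x ≠ 0)).card := by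
  classical
  unfold Sl
  rw [← Fintype.card_coe, ← Nat.card_eq_fintype_card]
  refine Nat.card_le_card_of_injective
    (fun x => ⟨x.1, by rw [mem_filter]; exact ⟨mem_univ _, x.2.2⟩⟩) ?_
  intro x y h
  have := congrArg Subtype.val h
  exact Subtype.ext this

/-- the support of an odd function in a coset, if `-1` is not in `Pl Γ L` -/
lemma XB_sl {G ι : Type*} [CommGroup G] [Fintype G] (Γ : ι → Subgroup G) (L : List ι)
    (g : G → ℤ) (e : G) (he : e ∉ Pl Γ L) (hg : ∀ x, g (e * x) = - g x) (a : G) :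
    2 * Sl Γ L g a ≤ (univ.filter (fun x => g x ≠ 0)).card := by
  classical
  set S : Finset G := univ.filter (fun x => x * a⁻¹ ∈ Pl Γ L ∧ g x ≠ 0) with hS
  have h1 : Sl Γ L g a = S.card := by
    unfold Sl
    rw [hS, ← Fintype.card_coe, ← Nat.card_eq_fintype_card]
    refine Nat.card_congr (Equiv.subtypeEquivRight fun x => ?_)
    rw [mem_filter]; simp
  have h2 : (S.image (fun x => e * x)).card = S.card :=
    card_image_of_injective _ (mul_right_injective e)
  have h3 : Disjoint S (S.image (fun x => e * x)) := by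
    rw [disjoint_left]
    intro x hx hx'
    obtain ⟨y, hy, rfl⟩ := mem_image.1 hx'
    rw [hS, mem_filter] at hx hy
    apply he
    have := (Pl Γ L).mul_mem hx.2.1 ((Pl Γ L).inv_mem hy.2.1)
    have h4 : e * y * a⁻¹ * (y * a⁻¹)⁻¹ = e := by group
    rwa [h4] at this
  have h5 : S ∪ S.image (fun x => e * x) ⊆ univ.filter (fun x => g x ≠ 0) := by
    intro x hx
    rw [mem_filter]
    refine ⟨mem_univ _, ?_⟩
    rcases mem_union.1 hx with h | h
    · rw [hS, mem_filter] at h
      exact h.2.2
    · obtain ⟨y, hy, rfl⟩ := mem_image.1 h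
      rw [hS, mem_filter] at hy
      rw [hg]
      exact neg_ne_zero.2 hy.2.2
  have h6 := card_le_card h5
  rw [card_union_of_disjoint h3, h2] at h6
  rw [h1]; omega

lemma XB_supp {G : Type*} [Fintype G] (f : G → ℤ) (h12 : ∑ x, |f x| ≤ 12) :
    (univ.filter (fun x => f x ≠ 0)).card ≤ 12 := by
  have h1 : ((univ.filter (fun x => f x ≠ 0)).card : ℤ) ≤ ∑ x, |f x| := by
    rw [card_eq_sum_ones, Nat.cast_sum]
    refine le_trans (sum_le_sum (g := fun x => |f x|) ?_)
      (sum_le_sum_of_subset_of_nonneg (subset_univ _) fun x _ _ => abs_nonneg _)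
    intro x hx
    rw [mem_filter] at hx
    simpa using Int.one_le_abs hx.2
  omega

lemma XB_five {D p : ℕ} (h6 : Nat.Coprime D 6) (hp : p ∈ D.primeFactors) : 5 ≤ p := by
  have hpp := Nat.prime_of_mem_primeFactors hp
  have hpd := Nat.dvd_of_mem_primeFactors hp
  by_contra hlt
  have h2 := hpp.two_le
  have hcase : p = 2 ∨ p = 3 ∨ p = 4 := by omega
  have hc : Nat.Coprime p 6 := Nat.Coprime.coprime_dvd_left hpd h6
  rcases hcase with rfl | rfl | rfl
  · norm_num at hc
  · norm_num at hc
  · norm_num at hpp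

lemma XB_card (D p : ℕ) [NeZero D] (h6 : Nat.Coprime D 6) (hp : p ∈ D.primeFactors) :
    4 ≤ Nat.card (Gam D p) := by
  have hpp := Nat.prime_of_mem_primeFactors hp
  have hpd := Nat.dvd_of_mem_primeFactors hp
  rw [card_Gam D p hpp hpd]
  have h5 : 5 ≤ p := XB_five h6 hp
  split_ifs <;> omega

lemma XB_one_ne {D r : ℕ} [NeZero D] (hr : r ∣ D) (h3 : 3 ≤ r) (L : List ℕ)
    (h : ∀ p ∈ L, p ∣ D ∧ r ∣ D / p) : (-1 : (ZMod D)ˣ) ∉ Pl (Gam D) L := by
  intro hu
  have h1 := Pl_Gam_cast D r hr L h (-1) hu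
  rw [Units.val_neg, Units.val_one, map_neg, map_one] at h1
  have h2 : ((2 : ℕ) : ZMod r) = 0 := by
    push_cast
    linear_combination -h1
  rw [ZMod.natCast_eq_zero_iff] at h2
  have := Nat.le_of_dvd (by norm_num) h2
  omega

theorem dec_ex (D : ℕ) [NeZero D] (h6 : Nat.Coprime D 6) (h35 : D ≠ 35) (f : (ZMod D)ˣ → ℤ)
    (hodd : ∀ x, f (-x) = - f x)
    (hf : ∀ L : List ℕ, L.Nodup → L.toFinset = D.primeFactors → MDv (Gam D) L f)
    (h12 : ∑ x, |f x| ≤ 12) : Dec D f := by
  classical
  have hD : D % 4 ≠ 2 := by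
    intro h
    have h2 : 2 ∣ Nat.gcd D 6 := Nat.dvd_gcd (by omega) (by norm_num)
    rw [h6] at h2
    omega
  have hD0 : 0 < D := Nat.pos_of_ne_zero (NeZero.ne D)
  have hsupp := XB_supp f h12
  by_cases hq : ∃ q ∈ D.primeFactors, 11 ≤ q
  · obtain ⟨q, hq, h11⟩ := hq
    have hqp := Nat.prime_of_mem_primeFactors hq
    have hqd := Nat.dvd_of_mem_primeFactors hq
    obtain ⟨L0, hL0⟩ : ∃ L0 : List ℕ, L0 = (D.primeFactors.erase q).toList := ⟨_, rfl⟩
    have hmem : ∀ p, p ∈ L0 ↔ p ≠ q ∧ p ∈ D.primeFactors := by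
      intro p; rw [hL0, Finset.mem_toList, Finset.mem_erase]
    have hnd0 : L0.Nodup := by rw [hL0]; exact Finset.nodup_toList _
    have hqL : q ∉ L0 := by rw [hmem]; simp
    have hnd : (q :: L0).Nodup := List.nodup_cons.2 ⟨hqL, hnd0⟩
    have htf : (q :: L0).toFinset = D.primeFactors := by
      rw [List.toFinset_cons, hL0, Finset.toList_toFinset, Finset.insert_erase hq]
    have hI : Indep (Gam D) (q :: L0) := indep_Gam D _ hnd (by
      intro p hp
      rw [← htf, List.mem_toFinset]; exact hp)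
    have hMD := hf _ hnd htf
    apply dec_of_strDec D hD f hodd (q :: L0) hnd htf
    by_cases hL : L0 = []
    · apply structure_thm _ _ hnd hI f hMD
      intro a i hi j hj hij
      exfalso
      rw [hL, List.mem_singleton] at hi hj
      exact hij (hi.trans hj.symm)
    · have hcq : 10 ≤ Nat.card (Gam D q) := by
        rw [card_Gam D q hqp hqd]
        split_ifs <;> omega
      obtain ⟨ρ, h1, h2, h3, _, h5, h7⟩ := structure_step (Gam D) q L0 hI hL f hMD (by
        intro j hj a
        have hj4 := XB_card D j h6 ((hmem j).1 hj).2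
        have hs := XB_sl0 (Gam D) (q :: L0) f a
        have : 10 * 4 ≤ Nat.card (Gam D q) * Nat.card (Gam D j) := Nat.mul_le_mul hcq hj4
        omega)
      apply structure_cons (Gam D) q L0 hqL f ρ h1 h3 h7
      apply structure_thm _ L0 hnd0 hI.2 _ h2
      intro a i hi j hj hij
      have hi4 := XB_card D i h6 ((hmem i).1 hi).2
      have hj4 := XB_card D j h6 ((hmem j).1 hj).2
      have hm1 : (-1 : (ZMod D)ˣ) ∉ Pl (Gam D) L0 := by
        apply XB_one_ne hqd (by omega)
        intro p hp
        obtain ⟨hpq, hpD⟩ := (hmem p).1 hp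
        have hpp := Nat.prime_of_mem_primeFactors hpD
        have hpd := Nat.dvd_of_mem_primeFactors hpD
        refine ⟨hpd, ?_⟩
        have hcop : Nat.Coprime p q := (Nat.coprime_primes hpp hqp).2 hpq
        exact (Nat.dvd_div_iff_mul_dvd hpd).2 (hcop.mul_dvd_of_dvd_of_dvd hpd hqd)
      have hodd' : ∀ x : (ZMod D)ˣ, f (-1 * x) = - f x := by
        intro x; rw [neg_one_mul, hodd]
      have hs := XB_sl (Gam D) L0 (fun x => f x - ρ x) (-1) hm1 (by
        intro x
        show f (-1 * x) - ρ (-1 * x) = - (f x - ρ x)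
        rw [hodd', h3 (-1) hodd' x]; ring) a
      have : 4 * 4 ≤ Nat.card (Gam D i) * Nat.card (Gam D j) := Nat.mul_le_mul hi4 hj4
      omega
  · push Not at hq
    have hsub : D.primeFactors ⊆ {5, 7} := by
      intro p hp
      have h1 := XB_five h6 hp
      have h2 := hq p hp
      have hpp := Nat.prime_of_mem_primeFactors hp
      rw [mem_insert, mem_singleton]
      have : p = 5 ∨ p = 6 ∨ p = 7 ∨ p = 8 ∨ p = 9 ∨ p = 10 := by omega
      rcases this with rfl | rfl | rfl | rfl | rfl | rfl
      · exact Or.inl rfl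
      · norm_num at hpp
      · exact Or.inr rfl
      · norm_num at hpp
      · norm_num at hpp
      · norm_num at hpp
    have hnd : (D.primeFactors.toList).Nodup := Finset.nodup_toList _
    have htf : (D.primeFactors.toList).toFinset = D.primeFactors := Finset.toList_toFinset _
    have hI : Indep (Gam D) D.primeFactors.toList := indep_Gam D _ hnd (by
      intro p hp; rwa [Finset.mem_toList] at hp)
    apply dec_of_strDec D hD f hodd _ hnd htf
    apply structure_thm _ _ hnd hI f (hf _ hnd htf)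
    intro a i hi j hj hij
    rw [Finset.mem_toList] at hi hj
    have hi4 := XB_card D i h6 hi
    have hj4 := XB_card D j h6 hj
    -- both 5 and 7 divide D
    have hboth : 5 ∣ D ∧ 7 ∣ D := by
      have hi' := hsub hi
      have hj' := hsub hj
      rw [mem_insert, mem_singleton] at hi' hj'
      rcases hi' with rfl | rfl <;> rcases hj' with rfl | rfl
      · exact absurd rfl hij
      · exact ⟨Nat.dvd_of_mem_primeFactors hi, Nat.dvd_of_mem_primeFactors hj⟩
      · exact ⟨Nat.dvd_of_mem_primeFactors hj, Nat.dvd_of_mem_primeFactors hi⟩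
      · exact absurd rfl hij
    obtain ⟨k, hk⟩ : 35 ∣ D :=
      (show Nat.Coprime 5 7 by norm_num).mul_dvd_of_dvd_of_dvd hboth.1 hboth.2
    have hk1 : k ≠ 1 := by rintro rfl; exact h35 (by omega)
    obtain ⟨p, hp, hpk⟩ := Nat.exists_prime_and_dvd hk1
    have hpD : p ∈ D.primeFactors :=
      Nat.mem_primeFactors.2 ⟨hp, hpk.trans (Dvd.intro_left _ hk.symm), hD0.ne'⟩
    have hm1 : (-1 : (ZMod D)ˣ) ∉ Pl (Gam D) D.primeFactors.toList := by
      apply XB_one_ne (Nat.dvd_of_mem_primeFactors hpD) (by have := XB_five h6 hpD; omega)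
      intro l hl
      rw [Finset.mem_toList] at hl
      refine ⟨Nat.dvd_of_mem_primeFactors hl, ?_⟩
      obtain ⟨k', rfl⟩ := hpk
      have hl' := hsub hl
      rw [mem_insert, mem_singleton] at hl'
      rcases hl' with rfl | rfl
      · rw [hk, show 35 * (p * k') = 5 * (7 * (p * k')) by ring,
          Nat.mul_div_cancel_left _ (by norm_num)]
        exact ⟨7 * k', by ring⟩
      · rw [hk, show 35 * (p * k') = 7 * (5 * (p * k')) by ring,
          Nat.mul_div_cancel_left _ (by norm_num)]
        exact ⟨5 * k', by ring⟩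
    have hs := XB_sl (Gam D) D.primeFactors.toList f (-1) hm1 (by
      intro x; rw [neg_one_mul, hodd]) a
    have : 4 * 4 ≤ Nat.card (Gam D i) * Nat.card (Gam D j) := Nat.mul_le_mul hi4 hj4
    omega

end Pool.Agent.helper76.LP
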