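import Pool.Agent.helper76.LP.Defs

/-! # Project QR, module XA: the units modulo 35 -/

namespace Pool.Agent.helper76.LP

open Finset

lemma XA_mem (d p : ℕ) (hp : p ∣ d) [NeZero d] (u : (ZMod d)ˣ) :
    u ∈ Gam d p ↔ (u : ZMod d).val % (d / p) = 1 % (d / p) := by
  unfold Gam
  rw [dif_pos hp, MonoidHom.mem_ker, Units.ext_iff]
  have h1 : ((ZMod.unitsMap (Nat.div_dvd_of_dvd hp) u : (ZMod (d / p))ˣ) : ZMod (d / p)) =
      (((u : ZMod d).val : ℕ) : ZMod (d / p)) := by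
    rw [ZMod.unitsMap_def, Units.coe_map]
    show ZMod.castHom (Nat.div_dvd_of_dvd hp) _ _ = _
    rw [ZMod.castHom_apply, ZMod.cast_eq_val]
  rw [h1, Units.val_one, ← Nat.cast_one, ZMod.natCast_eq_natCast_iff']

lemma XA_mem5 (u : (ZMod 35)ˣ) : u ∈ Gam 35 5 ↔ (u : ZMod 35).val % 7 = 1 := by
  rw [XA_mem 35 5 (by norm_num) u]

lemma XA_mem7 (u : (ZMod 35)ˣ) : u ∈ Gam 35 7 ↔ (u : ZMod 35).val % 5 = 1 := by
  rw [XA_mem 35 7 (by norm_num) u]

lemma XA_unit (u : (ZMod 35)ˣ) : (u : ZMod 35).val % 5 ≠ 0 ∧ (u : ZMod 35).val % 7 ≠ 0 := by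
  have h := ZMod.val_coe_unit_coprime u
  constructor
  · intro h0
    have h1 : 5 ∣ Nat.gcd (u : ZMod 35).val 35 :=
      Nat.dvd_gcd (Nat.dvd_of_mod_eq_zero h0) (by norm_num)
    rw [h] at h1
    omega
  · intro h0
    have h1 : 7 ∣ Nat.gcd (u : ZMod 35).val 35 :=
      Nat.dvd_gcd (Nat.dvd_of_mod_eq_zero h0) (by norm_num)
    rw [h] at h1
    omega

/-- a unit modulo 35 -/
def XA_k (k : ℕ) (h : Nat.Coprime k 35) : (ZMod 35)ˣ := ZMod.unitOfCoprime k h

lemma XA_sum1 : ∀ z : ZMod 35, z.val % 5 = 1 → z.val % 7 ≠ 0 →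
    saw 35 (((1 : ℕ) : ZMod 35) * z) + saw 35 (((6 : ℕ) : ZMod 35) * z) +
      saw 35 (((11 : ℕ) : ZMod 35) * z) + saw 35 (((16 : ℕ) : ZMod 35) * z) +
      saw 35 (((26 : ℕ) : ZMod 35) * z) + saw 35 (((31 : ℕ) : ZMod 35) * z) = -28 := by
  decide +kernel

lemma XA_sum2 : ∀ z : ZMod 35, z.val % 5 = 2 → z.val % 7 ≠ 0 →
    saw 35 (((1 : ℕ) : ZMod 35) * z) + saw 35 (((6 : ℕ) : ZMod 35) * z) +
      saw 35 (((11 : ℕ) : ZMod 35) * z) + saw 35 (((16 : ℕ) : ZMod 35) * z) +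
      saw 35 (((26 : ℕ) : ZMod 35) * z) + saw 35 (((31 : ℕ) : ZMod 35) * z) = 14 := by
  decide +kernel

lemma XA_sum3 : ∀ z : ZMod 35, z.val % 5 = 3 → z.val % 7 ≠ 0 →
    saw 35 (((1 : ℕ) : ZMod 35) * z) + saw 35 (((6 : ℕ) : ZMod 35) * z) +
      saw 35 (((11 : ℕ) : ZMod 35) * z) + saw 35 (((16 : ℕ) : ZMod 35) * z) +
      saw 35 (((26 : ℕ) : ZMod 35) * z) + saw 35 (((31 : ℕ) : ZMod 35) * z) = -14 := by
  decide +kernel

lemma XA_sum4 : ∀ z : ZMod 35, z.val % 5 = 4 → z.val % 7 ≠ 0 →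
    saw 35 (((1 : ℕ) : ZMod 35) * z) + saw 35 (((6 : ℕ) : ZMod 35) * z) +
      saw 35 (((11 : ℕ) : ZMod 35) * z) + saw 35 (((16 : ℕ) : ZMod 35) * z) +
      saw 35 (((26 : ℕ) : ZMod 35) * z) + saw 35 (((31 : ℕ) : ZMod 35) * z) = 28 := by
  decide +kernel

/-- the sum of the sawtooth over the coset -/
def XA_A (z : ZMod 35) : ℤ :=
  saw 35 (((1 : ℕ) : ZMod 35) * z) + saw 35 (((6 : ℕ) : ZMod 35) * z) +
      saw 35 (((11 : ℕ) : ZMod 35) * z) + saw 35 (((16 : ℕ) : ZMod 35) * z) +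
      saw 35 (((26 : ℕ) : ZMod 35) * z) + saw 35 (((31 : ℕ) : ZMod 35) * z)

/-- the unit `21 g + 15` modulo 35, congruent to `g` modulo 5 and to `1` modulo 7 -/
def XA_w5 (g : (ZMod 35)ˣ) : (ZMod 35)ˣ where
  val := 21 * g + 15
  inv := 21 * (g⁻¹ : (ZMod 35)ˣ) + 15
  val_inv := by
    have h1 : (g : ZMod 35) * (g⁻¹ : (ZMod 35)ˣ) = 1 := Units.mul_inv g
    have h2 : (315 : ZMod 35) = 0 := by decide
    have h3 : (441 + 225 : ZMod 35) = 1 := by decide
    linear_combination 441 * h1 + ((g : ZMod 35) + (g⁻¹ : (ZMod 35)ˣ)) * h2 + h3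
  inv_val := by
    have h1 : (g : ZMod 35) * (g⁻¹ : (ZMod 35)ˣ) = 1 := Units.mul_inv g
    have h2 : (315 : ZMod 35) = 0 := by decide
    have h3 : (441 + 225 : ZMod 35) = 1 := by decide
    linear_combination 441 * h1 + ((g : ZMod 35) + (g⁻¹ : (ZMod 35)ˣ)) * h2 + h3

lemma XA_w5_mem (g : (ZMod 35)ˣ) : XA_w5 g ∈ Gam 35 5 := by
  rw [XA_mem5]
  have : ∀ z : ZMod 35, (21 * z + 15).val % 7 = 1 := by decide +kernel
  exact this _

lemma XA_w7_mem (g : (ZMod 35)ˣ) : g * (XA_w5 g)⁻¹ ∈ Gam 35 7 := by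
  rw [XA_mem7]
  have h0 : ∀ z : ZMod 35, ∀ y : ZMod 35, (z * (21 * y + 15)).val % 5 = (z * y).val % 5 := by
    decide +kernel
  have h1 := h0 g (g⁻¹ : (ZMod 35)ˣ)
  have h2 : ((g * (XA_w5 g)⁻¹ : (ZMod 35)ˣ) : ZMod 35) = g * (21 * (g⁻¹ : (ZMod 35)ˣ) + 15) := by
    rw [Units.val_mul]; rfl
  rw [h2, h1, Units.mul_inv]
  rfl

lemma XA_card5 : 4 ≤ Nat.card (Gam 35 5) := by
  have hc : ∀ i : Fin 4, Nat.Coprime (![1, 8, 22, 29] i) 35 := by decide
  have hm : ∀ i : Fin 4, ((![1, 8, 22, 29] i : ℕ) : ZMod 35).val % 7 = 1 := by decide +kernel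
  have hinj : ∀ i j : Fin 4, ((![1, 8, 22, 29] i : ℕ) : ZMod 35) =
      ((![1, 8, 22, 29] j : ℕ) : ZMod 35) → i = j := by decide +kernel
  have h := Nat.card_le_card_of_injective (α := Fin 4) (β := Gam 35 5)
    (fun i => ⟨XA_k (![1, 8, 22, 29] i) (hc i), by
      rw [XA_mem5, XA_k, ZMod.coe_unitOfCoprime]; exact hm i⟩) (by
      intro i j hij
      apply hinj
      have h1 := congrArg (fun x : Gam 35 5 => ((x : (ZMod 35)ˣ) : ZMod 35)) hij
      simpa only [XA_k, ZMod.coe_unitOfCoprime] using h1)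
  simpa using h

lemma XA_card7 : 4 ≤ Nat.card (Gam 35 7) := by
  have hc : ∀ i : Fin 4, Nat.Coprime (![1, 6, 11, 16] i) 35 := by decide
  have hm : ∀ i : Fin 4, ((![1, 6, 11, 16] i : ℕ) : ZMod 35).val % 5 = 1 := by decide +kernel
  have hinj : ∀ i j : Fin 4, ((![1, 6, 11, 16] i : ℕ) : ZMod 35) =
      ((![1, 6, 11, 16] j : ℕ) : ZMod 35) → i = j := by decide +kernel
  have h := Nat.card_le_card_of_injective (α := Fin 4) (β := Gam 35 7)
    (fun i => ⟨XA_k (![1, 6, 11, 16] i) (hc i), by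
      rw [XA_mem7, XA_k, ZMod.coe_unitOfCoprime]; exact hm i⟩) (by
      intro i j hij
      apply hinj
      have h1 := congrArg (fun x : Gam 35 7 => ((x : (ZMod 35)ˣ) : ZMod 35)) hij
      simpa only [XA_k, ZMod.coe_unitOfCoprime] using h1)
  simpa using h

theorem ex35 (f : (ZMod 35)ˣ → ℤ) (hodd : ∀ x, f (-x) = - f x)
    (hf : MDv (Gam 35) [5, 7] f) (h12 : ∑ x, |f x| ≤ 12)
    (hav : ∑ x, |f x| = 12 → ∀ t : (ZMod 35)ˣ,
      ∑ z : (ZMod 35)ˣ, f z * saw 35 ((t : ZMod 35) * z) = 0) :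
    Dec 35 f := by
  have hmd : ∀ a ∈ Gam 35 5, ∀ b ∈ Gam 35 7, ∀ x,
      (f (a * (b * x)) - f (b * x)) - (f (a * x) - f x) = 0 := hf
  set e : (ZMod 35)ˣ := XA_k 29 (by norm_num) with he
  have he5 : e ∈ Gam 35 5 := by
    rw [XA_mem5, he, XA_k, ZMod.coe_unitOfCoprime]; decide +kernel
  have hme7 : -e ∈ Gam 35 7 := by
    rw [XA_mem7, he, XA_k, Units.val_neg, ZMod.coe_unitOfCoprime]; decide +kernel
  have hee : e * e = 1 := by
    rw [Units.ext_iff, he, XA_k, Units.val_mul, ZMod.coe_unitOfCoprime]; decide +kernel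
  obtain ⟨u, hu⟩ : ∃ u : (ZMod 35)ˣ → ℤ, ∀ x, u x = f x - f (e * x) := ⟨_, fun x => rfl⟩
  obtain ⟨v, hv⟩ : ∃ v : (ZMod 35)ˣ → ℤ, ∀ x, v x = f x + f (e * x) := ⟨_, fun x => rfl⟩
  have hu7 : ∀ b ∈ Gam 35 7, ∀ x, u (b * x) = u x := by
    intro b hb x
    have := hmd e he5 b hb x
    rw [hu, hu]; linarith
  have hv5 : ∀ a ∈ Gam 35 5, ∀ x, v (a * x) = v x := by
    intro a ha x
    have h1 := hmd a ha (-e) hme7 x
    have h2 : f (-e * x) = - f (e * x) := by rw [neg_mul, hodd]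
    have h3 : f (a * (-e * x)) = - f (e * (a * x)) := by
      rw [← hodd]; congr 1; rw [neg_mul, mul_neg, mul_left_comm]
    rw [h2, h3] at h1
    rw [hv, hv]; linarith
  have huodd : ∀ x, u (-x) = - u x := by
    intro x; rw [hu, hu, mul_neg, hodd, hodd]; ring
  have hvodd : ∀ x, v (-x) = - v x := by
    intro x; rw [hv, hv, mul_neg, hodd, hodd]; ring
  have h2f : ∀ x, 2 * f x = u x + v x := by intro x; rw [hu, hv]; ring
  have hSe : ∑ x, |f (e * x)| = ∑ x, |f x| :=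
    Equiv.sum_comp (Equiv.mulLeft e) (fun x => |f x|)
  have hS2 : ∑ x, (|f x| + |f (e * x)|) = 2 * ∑ x, |f x| := by
    rw [sum_add_distrib, hSe]; ring
  have hule : ∀ x, |u x| ≤ |f x| + |f (e * x)| := fun x => by rw [hu]; exact abs_sub _ _
  have hvle : ∀ x, |v x| ≤ |f x| + |f (e * x)| := fun x => by rw [hv]; exact abs_add_le _ _
  have hSu : ∑ x, |u x| ≤ 2 * ∑ x, |f x| := hS2 ▸ sum_le_sum fun x _ => hule x
  have hSv : ∑ x, |v x| ≤ 2 * ∑ x, |f x| := hS2 ▸ sum_le_sum fun x _ => hvle x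
  -- all values of `u` have the same parity
  have hpar : ∀ x y, Even (u x) → Even (u y) := by
    intro x y hx
    have h1 : ∀ z, Even (u z) ↔ Even (v z) := by
      intro z
      have := h2f z
      rw [Int.even_iff, Int.even_iff]
      omega
    have h2 : y = (y * x⁻¹ * (XA_w5 (y * x⁻¹))⁻¹) * (XA_w5 (y * x⁻¹) * x) := by group
    rw [h2, hu7 _ (XA_w7_mem _), h1, hv5 _ (XA_w5_mem _), ← h1]
    exact hx
  have hcard5 : 4 ≤ Nat.card (Gam 35 5) := XA_card5
  have hcard7 : 4 ≤ Nat.card (Gam 35 7) := XA_card7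
  have hpf : (35 : ℕ).primeFactors = {5, 7} := by decide +kernel
  by_cases hev : Even (u 1)
  · have hue : ∀ x, Even (u x) := fun x => hpar 1 x hev
    have hve : ∀ x, Even (v x) := by
      intro x
      have := h2f x
      have h3 := hue x
      rw [Int.even_iff] at h3 ⊢
      omega
    refine ⟨fun p x => if p = 5 then v x / 2 else u x / 2, ?_, ?_, ?_, ?_⟩
    · intro p hp a ha x
      rw [hpf, mem_insert, mem_singleton] at hp
      rcases hp with rfl | rfl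
      · simp only [if_pos]
        rw [hv5 a ha]
      · simp only [if_neg (show ¬ (7 = 5) by norm_num)]
        rw [hu7 a ha]
    · intro x
      rw [hpf, sum_pair (by norm_num)]
      simp only [if_pos, if_neg (show ¬ (7 = 5) by norm_num)]
      have h1 := h2f x
      have h2 := hue x
      have h3 := hve x
      rw [Int.even_iff] at h2 h3
      omega
    · intro p _ x
      by_cases h5 : p = 5
      · simp only [h5, if_pos]
        rw [hvodd]
        have h3 := hve x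
        rw [Int.even_iff] at h3
        omega
      · simp only [h5, if_false]
        rw [huodd]
        have h3 := hue x
        rw [Int.even_iff] at h3
        omega
    · rw [hpf, sum_pair (by norm_num)]
      simp only [if_pos, if_neg (show ¬ (7 = 5) by norm_num)]
      have hk5 : kap 35 5 = 2 := by unfold kap wo; norm_num
      have hk7 : kap 35 7 = 2 := by unfold kap wo; norm_num
      have hw : wo 35 = 1 := by unfold wo; norm_num
      rw [hk5, hk7, hw]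
      have hav2 : ∀ (g : (ZMod 35)ˣ → ℤ), (∀ x, Even (g x)) →
          2 * ∑ x, |g x / 2| = ∑ x, |g x| := by
        intro g hg
        rw [mul_sum]
        refine sum_congr rfl fun x _ => ?_
        obtain ⟨k, hk⟩ := hg x
        rw [hk, ← two_mul, Int.mul_ediv_cancel_left _ (by norm_num), abs_mul]
        norm_num
      have e1 := hav2 v hve
      have e2 := hav2 u hue
      have q1 : ((∑ x, |v x / 2| : ℤ) : ℚ) ≤ ((∑ x, |f x| : ℤ) : ℚ) := by
        exact_mod_cast (by linarith : ∑ x, |v x / 2| ≤ ∑ x, |f x|)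
      have q2 : ((∑ x, |u x / 2| : ℤ) : ℚ) ≤ ((∑ x, |f x| : ℤ) : ℚ) := by
        exact_mod_cast (by linarith : ∑ x, |u x / 2| ≤ ∑ x, |f x|)
      have c5 : (4 : ℚ) ≤ (Nat.card (Gam 35 5) : ℚ) := by exact_mod_cast hcard5
      have c7 : (4 : ℚ) ≤ (Nat.card (Gam 35 7) : ℚ) := by exact_mod_cast hcard7
      have n1 : (0 : ℚ) ≤ ((∑ x, |v x / 2| : ℤ) : ℚ) := by
        exact_mod_cast sum_nonneg fun x _ => abs_nonneg _
      have n2 : (0 : ℚ) ≤ ((∑ x, |u x / 2| : ℤ) : ℚ) := by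
        exact_mod_cast sum_nonneg fun x _ => abs_nonneg _
      have b1 : (2 : ℤ) * ((∑ x, |v x / 2| : ℤ) : ℚ) / (Nat.card (Gam 35 5) : ℚ) ≤
          ((∑ x, |f x| : ℤ) : ℚ) / 2 := by
        rw [div_le_iff₀ (by linarith)]
        push_cast at *
        nlinarith
      have b2 : (2 : ℤ) * ((∑ x, |u x / 2| : ℤ) : ℚ) / (Nat.card (Gam 35 7) : ℚ) ≤
          ((∑ x, |f x| : ℤ) : ℚ) / 2 := by
        rw [div_le_iff₀ (by linarith)]
        push_cast at *
        nlinarith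
      push_cast at *
      linarith
  · exfalso
    have huo : ∀ x, ¬ Even (u x) := fun x hx => hev (hpar x 1 hx)
    have h1 : ∀ x, (1 : ℤ) ≤ |f x| + |f (e * x)| := by
      intro x
      refine le_trans (Int.one_le_abs ?_) (hule x)
      intro h0
      exact huo x (by rw [h0]; exact ⟨0, rfl⟩)
    have hcard : Fintype.card (ZMod 35)ˣ = 24 := by
      rw [ZMod.card_units_eq_totient]; decide +kernel
    have hs1 : ∑ _x : (ZMod 35)ˣ, (1 : ℤ) = 24 := by
      rw [sum_const, card_univ, hcard]; norm_num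
    have hs2 : ∑ _x : (ZMod 35)ˣ, (1 : ℤ) ≤ ∑ x, (|f x| + |f (e * x)|) :=
      sum_le_sum fun x _ => h1 x
    have hS : ∑ x, |f x| = 12 := by
      rw [hs1, hS2] at hs2
      omega
    have heq : ∑ _x : (ZMod 35)ˣ, (1 : ℤ) = ∑ x, (|f x| + |f (e * x)|) := by
      rw [hs1, hS2, hS]; norm_num
    have hall := (sum_eq_sum_iff_of_le (fun x _ => h1 x)).1 heq
    have habs : ∀ x, |u x| = 1 := by
      intro x
      apply le_antisymm
      · rw [hall x (mem_univ x)]; exact hule x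
      · apply Int.one_le_abs
        intro h0
        exact huo x (by rw [h0]; exact ⟨0, rfl⟩)
    have hav' := hav hS
    -- sum over the coset
    have hA : ∑ z : (ZMod 35)ˣ, f z * XA_A (z : ZMod 35) = 0 := by
      have e1 := hav' (XA_k 1 (by norm_num))
      have e2 := hav' (XA_k 6 (by norm_num))
      have e3 := hav' (XA_k 11 (by norm_num))
      have e4 := hav' (XA_k 16 (by norm_num))
      have e5 := hav' (XA_k 26 (by norm_num))
      have e6 := hav' (XA_k 31 (by norm_num))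
      simp only [XA_k, ZMod.coe_unitOfCoprime] at e1 e2 e3 e4 e5 e6
      have : ∑ z : (ZMod 35)ˣ, f z * XA_A (z : ZMod 35) =
          ∑ z : (ZMod 35)ˣ, f z * saw 35 (((1 : ℕ) : ZMod 35) * z) +
          ∑ z : (ZMod 35)ˣ, f z * saw 35 (((6 : ℕ) : ZMod 35) * z) +
          ∑ z : (ZMod 35)ˣ, f z * saw 35 (((11 : ℕ) : ZMod 35) * z) +
          ∑ z : (ZMod 35)ˣ, f z * saw 35 (((16 : ℕ) : ZMod 35) * z) +
          ∑ z : (ZMod 35)ˣ, f z * saw 35 (((26 : ℕ) : ZMod 35) * z) +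
          ∑ z : (ZMod 35)ˣ, f z * saw 35 (((31 : ℕ) : ZMod 35) * z) := by
        simp only [← sum_add_distrib]
        refine sum_congr rfl fun z _ => ?_
        unfold XA_A
        ring
      rw [this, e1, e2, e3, e4, e5, e6]
      norm_num
    have hAval : ∀ z : (ZMod 35)ˣ,
        ((z : ZMod 35).val % 5 = 1 ∧ XA_A (z : ZMod 35) = -28) ∨
        ((z : ZMod 35).val % 5 = 2 ∧ XA_A (z : ZMod 35) = 14) ∨
        ((z : ZMod 35).val % 5 = 3 ∧ XA_A (z : ZMod 35) = -14) ∨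
        ((z : ZMod 35).val % 5 = 4 ∧ XA_A (z : ZMod 35) = 28) := by
      intro z
      obtain ⟨z5, z7⟩ := XA_unit z
      have hlt : (z : ZMod 35).val % 5 < 5 := Nat.mod_lt _ (by norm_num)
      have hcases : (z : ZMod 35).val % 5 = 1 ∨ (z : ZMod 35).val % 5 = 2 ∨
          (z : ZMod 35).val % 5 = 3 ∨ (z : ZMod 35).val % 5 = 4 := by omega
      rcases hcases with h | h | h | h
      · exact Or.inl ⟨h, XA_sum1 z h z7⟩
      · exact Or.inr (Or.inl ⟨h, XA_sum2 z h z7⟩)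
      · exact Or.inr (Or.inr (Or.inl ⟨h, XA_sum3 z h z7⟩))
      · exact Or.inr (Or.inr (Or.inr ⟨h, XA_sum4 z h z7⟩))
    have hAe : ∀ z : (ZMod 35)ˣ, XA_A ((e * z : (ZMod 35)ˣ) : ZMod 35) = - XA_A (z : ZMod 35) := by
      intro z
      have hval : ((e * z : (ZMod 35)ˣ) : ZMod 35) = ((29 : ℕ) : ZMod 35) * z := by
        rw [Units.val_mul, he, XA_k, ZMod.coe_unitOfCoprime]
      have hmod : ∀ y : ZMod 35, (((29 : ℕ) : ZMod 35) * y).val % 5 = (5 - y.val % 5) % 5 := by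
        decide +kernel
      have h5 := hmod z
      rw [← hval] at h5
      rcases hAval z with ⟨h, h'⟩ | ⟨h, h'⟩ | ⟨h, h'⟩ | ⟨h, h'⟩ <;>
      rcases hAval (e * z) with ⟨g, g'⟩ | ⟨g, g'⟩ | ⟨g, g'⟩ | ⟨g, g'⟩ <;>
      first
      | linarith [h', g']
      | (exfalso; rw [g, h] at h5; omega)
    have hA2 : ∑ z : (ZMod 35)ˣ, f (e * z) * XA_A (z : ZMod 35) = 0 := by
      have h1 : ∑ z : (ZMod 35)ˣ, f (e * z) * XA_A (z : ZMod 35) =
          ∑ z : (ZMod 35)ˣ, f z * XA_A ((e * z : (ZMod 35)ˣ) : ZMod 35) := by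
        rw [← Equiv.sum_comp (Equiv.mulLeft e)
          (fun z : (ZMod 35)ˣ => f z * XA_A ((e * z : (ZMod 35)ˣ) : ZMod 35))]
        refine sum_congr rfl fun z _ => ?_
        simp only [Equiv.coe_mulLeft]
        rw [← mul_assoc, hee, one_mul]
      rw [h1]
      simp only [hAe, mul_neg, sum_neg_distrib, hA, neg_zero]
    have hA3 : ∑ z : (ZMod 35)ˣ, u z * XA_A (z : ZMod 35) = 0 := by
      have : ∑ z : (ZMod 35)ˣ, u z * XA_A (z : ZMod 35) =
          ∑ z : (ZMod 35)ˣ, f z * XA_A (z : ZMod 35) -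
            ∑ z : (ZMod 35)ˣ, f (e * z) * XA_A (z : ZMod 35) := by
        rw [← sum_sub_distrib]
        refine sum_congr rfl fun z _ => ?_
        rw [hu]; ring
      rw [this, hA, hA2]; norm_num
    set two : (ZMod 35)ˣ := XA_k 2 (by norm_num) with htwo
    set hlf : (ZMod 35)ˣ := XA_k 18 (by norm_num) with hhlf
    have hth : hlf * two = 1 := by
      rw [Units.ext_iff, htwo, hhlf, XA_k, XA_k, Units.val_mul, ZMod.coe_unitOfCoprime,
        ZMod.coe_unitOfCoprime]; decide +kernel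
    have t1 : ∀ z : (ZMod 35)ˣ, (z : ZMod 35).val % 5 = 1 → u z = u 1 := by
      intro z hz
      have := hu7 z ((XA_mem7 z).2 hz) 1
      rwa [mul_one] at this
    have t4 : ∀ z : (ZMod 35)ˣ, (z : ZMod 35).val % 5 = 4 → u z = - u 1 := by
      intro z hz
      have hd : ∀ y : ZMod 35, y.val % 5 = 4 → (-y).val % 5 = 1 := by decide +kernel
      have := t1 (-z) (by rw [Units.val_neg]; exact hd _ hz)
      rw [huodd] at this
      linarith
    have t2 : ∀ z : (ZMod 35)ˣ, (z : ZMod 35).val % 5 = 2 → u z = u two := by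
      intro z hz
      have hd : ∀ y : ZMod 35, y.val % 5 = 2 → (y * ((18 : ℕ) : ZMod 35)).val % 5 = 1 := by
        decide +kernel
      have hm : z * hlf ∈ Gam 35 7 := by
        rw [XA_mem7, Units.val_mul, hhlf, XA_k, ZMod.coe_unitOfCoprime]
        exact hd _ hz
      have := hu7 _ hm two
      rwa [mul_assoc, hth, mul_one] at this
    have t3 : ∀ z : (ZMod 35)ˣ, (z : ZMod 35).val % 5 = 3 → u z = - u two := by
      intro z hz
      have hd : ∀ y : ZMod 35, y.val % 5 = 3 → (-y).val % 5 = 2 := by decide +kernel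
      have := t2 (-z) (by rw [Units.val_neg]; exact hd _ hz)
      rw [huodd] at this
      linarith
    have hh : ∀ z : (ZMod 35)ˣ, u z * XA_A (z : ZMod 35) +
        u (two * z) * XA_A ((two * z : (ZMod 35)ˣ) : ZMod 35) = -28 * u 1 + 14 * u two := by
      intro z
      have hval : ((two * z : (ZMod 35)ˣ) : ZMod 35) = ((2 : ℕ) : ZMod 35) * z := by
        rw [Units.val_mul, htwo, XA_k, ZMod.coe_unitOfCoprime]
      have hmod : ∀ y : ZMod 35, (((2 : ℕ) : ZMod 35) * y).val % 5 = (2 * (y.val % 5)) % 5 := by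
        decide +kernel
      have h5 := hmod z
      rw [← hval] at h5
      rcases hAval z with ⟨h, h'⟩ | ⟨h, h'⟩ | ⟨h, h'⟩ | ⟨h, h'⟩ <;>
      rcases hAval (two * z) with ⟨g, g'⟩ | ⟨g, g'⟩ | ⟨g, g'⟩ | ⟨g, g'⟩ <;>
      first
      | (exfalso; rw [g, h] at h5; omega)
      | (rw [h', g', t1 z h, t2 _ g]; ring)
      | (rw [h', g', t2 z h, t4 _ g]; ring)
      | (rw [h', g', t3 z h, t1 _ g]; ring)
      | (rw [h', g', t4 z h, t3 _ g]; ring)
    have hA4 : ∑ z : (ZMod 35)ˣ, u (two * z) * XA_A ((two * z : (ZMod 35)ˣ) : ZMod 35) = 0 := by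
      rw [← hA3]
      exact Equiv.sum_comp (Equiv.mulLeft two) (fun z => u z * XA_A (z : ZMod 35))
    have hfin : ∑ _z : (ZMod 35)ˣ, (-28 * u 1 + 14 * u two) = 0 := by
      rw [← sum_congr rfl (fun z _ => hh z), sum_add_distrib, hA3, hA4]; norm_num
    rw [sum_const, card_univ, hcard, nsmul_eq_mul] at hfin
    have a1 := habs 1
    have a2 := habs two
    push_cast at hfin
    rcases abs_eq (by norm_num : (0 : ℤ) ≤ 1) |>.1 a1 with h | h <;>
    rcases abs_eq (by norm_num : (0 : ℤ) ≤ 1) |>.1 a2 with h' | h' <;>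
    · rw [h, h'] at hfin
      norm_num at hfin

end Pool.Agent.helper76.LP
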